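import Mathlib
import Pool.Agent.Helper189.SquaresC

set_option autoImplicit false

namespace Pool.Agent.Results.MP_22a11a_co.SquareExponent

/-- `Q_d(A)`: the number of `(x, y)` in `G × G`, `G = F_2^n`, such that the four points `(x, y)`,
`(x, y + d)`, `(x + d, y)`, `(x + d, y + d)` lie in `A`. -/
def Q {n : ℕ} (A : Finset ((Fin n → ZMod 2) × (Fin n → ZMod 2))) (d : Fin n → ZMod 2) : ℕ :=
  (Finset.univ.filter fun p : (Fin n → ZMod 2) × (Fin n → ZMod 2) =>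
    p ∈ A ∧ (p.1, p.2 + d) ∈ A ∧ (p.1 + d, p.2) ∈ A ∧ (p.1 + d, p.2 + d) ∈ A).card

/-- `c` is a valid exponent for squares (`N = 2^n`). -/
def ValidExponent (c : ℝ) : Prop :=
  ∃ K : ℝ, 0 < K ∧ ∀ α : ℝ, 0 < α → α < 1 → ∃ n₀ : ℕ, ∀ n : ℕ, n₀ ≤ n →
    ∀ A : Finset ((Fin n → ZMod 2) × (Fin n → ZMod 2)), α * ((2 : ℝ) ^ n) ^ 2 ≤ A.card →
      ∃ d : Fin n → ZMod 2, d ≠ 0 ∧ K * α ^ c * ((2 : ℝ) ^ n) ^ 2 ≤ Q A d

/-- The infimum `C` of all valid exponents, as an extended real number (`⊤` if there is none). -/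
noncomputable def C : EReal := sInf {x : EReal | ∃ c : ℝ, ValidExponent c ∧ x = (c : EReal)}

/-- `C ≥ log (32/9) / log (4/3)`, and this number is larger than `4.4`; in particular `C > 4`. -/
theorem result :
    ((Real.log (32 / 9) / Real.log (4 / 3) : ℝ) : EReal) ≤ C ∧
      (4.4 : ℝ) < Real.log (32 / 9) / Real.log (4 / 3) := by
  refine ⟨?_, Pool.Agent.Helper189.Squares.num_bound⟩
  apply le_sInf
  rintro x ⟨c, hc, rfl⟩
  exact EReal.coe_le_coe_iff.2 (Pool.Agent.Helper189.Squares.valid_ge c hc)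

end Pool.Agent.Results.MP_22a11a_co.SquareExponent
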